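import Mathlib

/-!
# Finitely generated projective modules over group algebras of HNN extensions: statements

Project KZ of helper5 (MP_c052b4_al). Goal: there is a torsionfree group `H` with two generators such
that for every division ring `k`: if all finitely generated projective `k[H]`-modules are stably free,
then so are those over `k[G]` for all torsionfree groups `G` (unconditional; a part of Waldhausen's
theorem is proved on the way).
-/

set_option autoImplicit false

namespace Pool.Agent.Helper5.KZ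

universe u

/-- The idempotent matrix `e` is stably free: `e ⊕ 1` is equivalent to an identity matrix. -/
def SF {R : Type u} [Ring R] {ι : Type} [Fintype ι] [DecidableEq ι] (e : Matrix ι ι R) : Prop :=
  ∃ (m r : ℕ) (X : Matrix (ι ⊕ Fin m) (Fin r) R) (Y : Matrix (Fin r) (ι ⊕ Fin m) R),
    X * Y = Matrix.fromBlocks e 0 0 1 ∧ Y * X = 1

/-- All idempotent matrices are stably free. -/
def K0Triv (R : Type u) [Ring R] : Prop :=
  ∀ (n : ℕ) (e : Matrix (Fin n) (Fin n) R), e * e = e → SF e

/-- The module `N` is stably free (and finitely generated). -/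
def SFm (R : Type u) [Ring R] (N : Type u) [AddCommGroup N] [Module R N] : Prop :=
  ∃ a b : ℕ, Nonempty ((N × (Fin a → R)) ≃ₗ[R] (Fin b → R))

/-! ## Piece FREE

The group algebra of a free group over a division ring. Proof for a free group `F` of finite rank (the
general case follows: the entries of an idempotent matrix lie in a finitely generated free
factor): let `e` be an idempotent `n × n`-matrix over `S = k[F]`, `L = S^n` (row vectors),
`M = {x ∈ L : x e = x}`. The Cayley graph `T` of `F` is a tree (vertices `v ∈ F`, edges `v — v s`, `s` a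
generator), with `F` acting by left multiplication. Let `W` be a ball around `1` in `F`, and for a
vertex `v` let `M_v = {x ∈ M : supp x ⊆ {h : h⁻¹ v ∈ W}}`, finite-dimensional over `k`, `M_{gv} = g M_v`;
for an edge `c = (v, w)` let `M_c = M_v ∩ M_w`. If `W` is so large that `M_1` contains the rows of `e`, then
`0 → ⊕_c M_c → ⊕_v M_v → M → 0` is exact: if `∑ x_v = 0`, take a leaf `v` of the convex hull of the
support, and `w` the neighbour of `v` in the direction of the rest; then `x_v = - ∑ x_{v'}` has support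
in `{h : h⁻¹ v ∈ W}` and in the union of the `{h : h⁻¹ v' ∈ W}`, so in `{h : h⁻¹ w ∈ W}` as `hW` is
convex. So `x_v ∈ M_c`, subtract its boundary, and induct. Also the first map is injective (leaf
argument). The first two terms are the free modules `S ⊗_k (⊕_s M_{(1,s)})` and `S ⊗_k M_1` of finite rank,
and `M` is projective, so the sequence splits and `M ⊕ S^c ≅ S^a`. -/
def S_FREE : Prop :=
  ∀ (k : Type) [DivisionRing k] (X : Type), K0Triv (MonoidAlgebra k (FreeGroup X))

/-! ## Piece IND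

Induced modules. `G` a group, `C` a subgroup, `N` a `k[G]`-module, `N₀` a subset which is the direct
summand of an internal induced module: every element of `N` is a sum of elements `g x`, `x ∈ N₀`, and the
`g N₀`, `g ∈ G / C`, are independent. If `N₀ × k[C]^a` has the `k[C]`-basis `d`, then `N × k[G]^a` has the
`k[G]`-basis `d`. -/

/-- The pairs of an element of `N₀` and a vector over `k[C]`. -/
def Box {k : Type} [DivisionRing k] {G : Type} [Group G] (C : Subgroup G) {N : Type}
    [AddCommGroup N] (N₀ : AddSubgroup N) (a : ℕ) :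
    Set (N × (Fin a → MonoidAlgebra k G)) :=
  {y | y.1 ∈ N₀ ∧ ∀ i, ∀ g ∈ (y.2 i).coeff.support, g ∈ C}

/-- `N₀` is stably free over `k[C]`, with explicit basis of `N₀ × k[C]^a`. -/
def SFin {k : Type} [DivisionRing k] {G : Type} [Group G] (C : Subgroup G) {N : Type}
    [AddCommGroup N] [Module (MonoidAlgebra k G) N] (N₀ : AddSubgroup N) : Prop :=
  ∃ (a b : ℕ) (d : Fin b → N × (Fin a → MonoidAlgebra k G)),
    (∀ j, d j ∈ Box (k := k) C N₀ a) ∧
    (∀ y ∈ Box (k := k) C N₀ a, ∃ c : Fin b → MonoidAlgebra k G,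
      (∀ j, ∀ g ∈ (c j).coeff.support, g ∈ C) ∧ y = ∑ j, c j • d j) ∧
    (∀ c : Fin b → MonoidAlgebra k G, (∀ j, ∀ g ∈ (c j).coeff.support, g ∈ C) →
      ∑ j, c j • d j = 0 → c = 0)

def S_IND : Prop :=
  ∀ (k : Type) [DivisionRing k] (G : Type) [Group G] (C : Subgroup G) (N : Type)
    [AddCommGroup N] [Module (MonoidAlgebra k G) N] (N₀ : AddSubgroup N),
    (∀ g ∈ C, ∀ a : k, ∀ x ∈ N₀, MonoidAlgebra.single g a • x ∈ N₀) →
    (∀ x : N, x ∈ AddSubgroup.closure {y | ∃ (g : G) (z : N), z ∈ N₀ ∧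
      y = MonoidAlgebra.single g (1 : k) • z}) →
    (∀ (s : Finset G) (z : G → N), (∀ g ∈ s, ∀ g' ∈ s, g⁻¹ * g' ∈ C → g = g') →
      (∀ g ∈ s, z g ∈ N₀) → ∑ g ∈ s, MonoidAlgebra.single g (1 : k) • z g = 0 →
      ∀ g ∈ s, z g = 0) →
    SFin (k := k) C N₀ → SFm (MonoidAlgebra k G) N

/-! ## Piece TREE

The Bass-Serre tree of an HNN extension. The files `Pool/Agent/Helper270/Tree.lean`,
`Pool/Agent/Helper270/HNN.lean` (and `Pool/Agent/helper444_cyc/Tree.lean`: `near`, `sep_geod`) have the tree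
`graph φ` with vertices `vt h = h B`, `isTree`, `treeAct`, `exists_geod`, `exists_next`, `adj_vt_one`,
`stab_edge`, ... `Hp` is the set of the `h` for which the vertex `h B` is nearer to `t B` than to `B`. -/

open HNNExtension in
/-- The properties of the side `Hp` of the edge from `B` to `t B`, and convex hulls. -/
structure Sides {B : Type} [Group B] {A₁ A₂ : Subgroup B} (φ : A₁ ≃* A₂)
    (Hp : Set (HNNExtension B A₁ A₂ φ)) : Prop where
  right : ∀ (h : HNNExtension B A₁ A₂ φ) (b : B), h * of b ∈ Hp ↔ h ∈ Hp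
  one : (1 : HNNExtension B A₁ A₂ φ) ∉ Hp
  t_mem : (t : HNNExtension B A₁ A₂ φ) ∈ Hp
  left : ∀ (b : B) (h : HNNExtension B A₁ A₂ φ), b ∈ A₂ → (of b * h ∈ Hp ↔ h ∈ Hp)
  cover : ∀ h : HNNExtension B A₁ A₂ φ, (∃ b : B, h = of b) ∨ (∃ b : B, (of b)⁻¹ * h ∈ Hp) ∨
    ∃ b : B, t * (of b)⁻¹ * h ∉ Hp
  unique_out : ∀ (h : HNNExtension B A₁ A₂ φ) (b b' : B), (of b)⁻¹ * h ∈ Hp →
    (of b')⁻¹ * h ∈ Hp → b⁻¹ * b' ∈ A₂
  unique_in : ∀ (h : HNNExtension B A₁ A₂ φ) (b b' : B), t * (of b)⁻¹ * h ∉ Hp →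
    t * (of b')⁻¹ * h ∉ Hp → b⁻¹ * b' ∈ A₁
  out_in : ∀ (h : HNNExtension B A₁ A₂ φ) (b b' : B), (of b)⁻¹ * h ∈ Hp →
    ¬ (t * (of b')⁻¹ * h ∉ Hp)
  /-- every finite set is contained in a set `W = Wf * B` which is convex: if it has elements on both
  sides of the edge from `g B` to `g t B`, then it contains `g` and `g t` -/
  hull : ∀ E : Finset (HNNExtension B A₁ A₂ φ), ∃ Wf : Finset (HNNExtension B A₁ A₂ φ),
    E ⊆ Wf ∧ (1 : HNNExtension B A₁ A₂ φ) ∈ Wf ∧ ∀ g : HNNExtension B A₁ A₂ φ,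
      (∃ w ∈ Wf, g⁻¹ * w ∈ Hp) → (∃ w ∈ Wf, g⁻¹ * w ∉ Hp) →
      (∃ (w : HNNExtension B A₁ A₂ φ) (b : B), w ∈ Wf ∧ g = w * of b) ∧
      (∃ (w : HNNExtension B A₁ A₂ φ) (b : B), w ∈ Wf ∧ g * t = w * of b)

def S_TREE : Prop :=
  ∀ (B : Type) [Group B] (A₁ A₂ : Subgroup B) (φ : A₁ ≃* A₂),
    ∃ Hp : Set (HNNExtension B A₁ A₂ φ), Sides φ Hp

/-! ## Piece CORE (helper5)

HNN extensions with stably trivial associated subgroups. -/

def S_CORE : Prop :=
  ∀ (k : Type) [DivisionRing k] (B : Type) [Group B] (A₁ A₂ : Subgroup B) (φ : A₁ ≃* A₂),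
    K0Triv (MonoidAlgebra k A₁) → K0Triv (MonoidAlgebra k A₂) →
    K0Triv (MonoidAlgebra k (HNNExtension B A₁ A₂ φ)) → K0Triv (MonoidAlgebra k B)

/-! ## Piece MOD

Matrices and modules. -/

/-- All finitely generated projective modules are stably free. -/
def ProjSF (R : Type u) [Ring R] : Prop :=
  ∀ (P : Type u) [AddCommGroup P] [Module R P] [Module.Finite R P] [Module.Projective R P],
    SFm R P

/-- (Use row vectors: `Matrix.toLinearMapRight'`, `Matrix.vecMul`.) -/
def S_MOD : Prop := ∀ (R : Type) [Ring R], ProjSF R ↔ K0Triv R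

/-- The idempotent matrix `e` is stably free iff the module `{x : x e = x}` is. -/
def S_MOD2 : Prop := ∀ (R : Type) [Ring R] (ι : Type) [Fintype ι] [DecidableEq ι]
  (e : Matrix ι ι R), e * e = e → ∀ (P : Submodule R (ι → R)),
    (∀ x, x ∈ P ↔ Matrix.vecMul x e = x) → (SF e ↔ SFm R P)

end Pool.Agent.Helper5.KZ
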