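import Pool.Agent.Helper5.KZ.Flag
import Pool.Agent.Helper20.KZ.Mod

/-!
# Assembly of `S_CORE`
-/

set_option autoImplicit false

open MonoidAlgebra Matrix

namespace Pool.Agent.Helper5.KZ

section ModuleTheory

variable {R : Type} [Ring R]

/-- powers -/
noncomputable def finProd (a b : ℕ) : ((Fin a → R) × (Fin b → R)) ≃ₗ[R] (Fin (a + b) → R) :=
  ((LinearEquiv.sumArrowLequivProdArrow (Fin a) (Fin b) R R).symm).trans
    (LinearEquiv.funCongrLeft R R finSumFinEquiv.symm)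

theorem sfm_complement {P N₁ N₂ E : Type} [AddCommGroup P] [Module R P] [AddCommGroup N₁]
    [Module R N₁] [AddCommGroup N₂] [Module R N₂] [AddCommGroup E] [Module R E]
    (e : (P × (N₂ × N₁)) ≃ₗ[R] E) (n : ℕ) (eE : E ≃ₗ[R] (Fin n → R)) (h1 : SFm R N₁)
    (h2 : SFm R N₂) : SFm R P := by
  obtain ⟨a₁, b₁, ⟨e₁⟩⟩ := h1
  obtain ⟨a₂, b₂, ⟨e₂⟩⟩ := h2
  refine ⟨b₂ + b₁, n + (a₂ + a₁), ⟨?_⟩⟩
  have s1 : (P × (Fin (b₂ + b₁) → R)) ≃ₗ[R] (P × ((Fin b₂ → R) × (Fin b₁ → R))) :=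
    LinearEquiv.prodCongr (LinearEquiv.refl R P) (finProd b₂ b₁).symm
  have s2 : (P × ((Fin b₂ → R) × (Fin b₁ → R))) ≃ₗ[R]
      (P × ((N₂ × (Fin a₂ → R)) × (N₁ × (Fin a₁ → R)))) :=
    LinearEquiv.prodCongr (LinearEquiv.refl R P) (LinearEquiv.prodCongr e₂.symm e₁.symm)
  have s3 : (P × ((N₂ × (Fin a₂ → R)) × (N₁ × (Fin a₁ → R)))) ≃ₗ[R]
      (P × ((N₂ × N₁) × ((Fin a₂ → R) × (Fin a₁ → R)))) :=
    LinearEquiv.prodCongr (LinearEquiv.refl R P) (LinearEquiv.prodProdProdComm R _ _ _ _)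
  have s4 : (P × ((N₂ × N₁) × ((Fin a₂ → R) × (Fin a₁ → R)))) ≃ₗ[R]
      ((P × (N₂ × N₁)) × ((Fin a₂ → R) × (Fin a₁ → R))) :=
    (LinearEquiv.prodAssoc R _ _ _).symm
  have s5 : ((P × (N₂ × N₁)) × ((Fin a₂ → R) × (Fin a₁ → R))) ≃ₗ[R]
      ((Fin n → R) × (Fin (a₂ + a₁) → R)) :=
    LinearEquiv.prodCongr (e.trans eE) (finProd a₂ a₁)
  exact s1.trans (s2.trans (s3.trans (s4.trans (s5.trans (finProd n (a₂ + a₁))))))

/-- Remove a trivial summand. -/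
theorem sf_of_blocks {n m : ℕ} {e : Matrix (Fin n) (Fin n) R}
    (h : SF (Matrix.fromBlocks e 0 0 (1 : Matrix (Fin m) (Fin m) R))) : SF e := by
  obtain ⟨m', r, X, Y, hXY, hYX⟩ := h
  let ε : (Fin n ⊕ Fin m) ⊕ Fin m' ≃ Fin n ⊕ Fin (m + m') :=
    (Equiv.sumAssoc (Fin n) (Fin m) (Fin m')).trans (Equiv.sumCongr (Equiv.refl _) finSumFinEquiv)
  refine ⟨m + m', r, X.submatrix ε.symm id, Y.submatrix id ε.symm, ?_, ?_⟩
  · have h1 : X.submatrix ε.symm id * Y.submatrix id ε.symm = (X * Y).submatrix ε.symm ε.symm :=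
      (Matrix.submatrix_mul X Y ε.symm id ε.symm Function.bijective_id).symm
    rw [h1, hXY]
    ext i j
    rcases i with i | i
    · rcases j with j | j
      · simp [ε]
      · obtain ⟨j', rfl⟩ := finSumFinEquiv.surjective j
        rcases j' with j' | j' <;> simp [ε, -finSumFinEquiv_apply_left, -finSumFinEquiv_apply_right]
    · obtain ⟨i', rfl⟩ := finSumFinEquiv.surjective i
      rcases j with j | j
      · rcases i' with i' | i' <;> simp [ε, -finSumFinEquiv_apply_left, -finSumFinEquiv_apply_right]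
      · obtain ⟨j', rfl⟩ := finSumFinEquiv.surjective j
        rcases i' with i' | i' <;> rcases j' with j' | j' <;>
          simp [ε, Matrix.one_apply, -finSumFinEquiv_apply_left, -finSumFinEquiv_apply_right]
  · have h1 : Y.submatrix id ε.symm * X.submatrix ε.symm id = (Y * X).submatrix id id :=
      Matrix.submatrix_mul_equiv Y X id ε.symm id
    rw [h1, hYX, Matrix.submatrix_id_id]

end ModuleTheory

section FixSub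

variable {k : Type} [DivisionRing k] {G H : Type} [Group G] [Group H] (f : G →* H)
  {ι κ : Type} [Fintype ι] [Fintype κ] [DecidableEq κ]
  (Xm : Matrix ι κ (MonoidAlgebra k H)) (Ym : Matrix κ ι (MonoidAlgebra k H))

/-- The vectors supported in `𝓔` fixed by the projection attached to `Y`. -/
noncomputable def fixSub (𝓔 Y : Set H) (hE : ∀ g, ∀ h ∈ 𝓔, f g * h ∈ 𝓔)
    (hY : ∀ g h, f g * h ∈ Y ↔ h ∈ Y) : Submodule (MonoidAlgebra k G) (LL (mR k f) κ) where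
  carrier := {x | SupV (k := k) (ι := κ) 𝓔 x ∧ prj Xm Ym Y x = x}
  zero_mem' := ⟨SupV.zero, prj_zero Xm Ym Y⟩
  add_mem' := fun {y y'} hy hy' => ⟨hy.1.add hy'.1, by
    have h1 := prj_add Xm Ym Y y y'
    rw [hy.2, hy'.2] at h1
    exact h1⟩
  smul_mem' := fun c {y} hy => ⟨supV_mR_smul f hE c hy.1,
    (prj_mR_smul f Xm Ym hY c y).trans (congrArg (fun z : κ → MonoidAlgebra k H =>
      mR k f c • z) hy.2)⟩

/-- The vectors supported in `𝓔`. -/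
noncomputable def supSub (κ : Type) (𝓔 : Set H) (hE : ∀ g, ∀ h ∈ 𝓔, f g * h ∈ 𝓔) :
    Submodule (MonoidAlgebra k G) (LL (mR k f) κ) where
  carrier := {x | SupV (k := k) (ι := κ) 𝓔 x}
  zero_mem' := SupV.zero
  add_mem' := fun {y y'} hy hy' => hy.add hy'
  smul_mem' := fun c {y} hy => supV_mR_smul f hE c hy

variable {e : Matrix ι ι (MonoidAlgebra k G)}

/-- The decomposition of the vectors supported in `𝓔` in three parts. -/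
theorem three_parts (hXY : Xm * Ym = e.map (mR k f)) (hYX : Ym * Xm = 1) (𝓔 Y₀ Y₂ Y₁ : Set H)
    (hE : ∀ g, ∀ h ∈ 𝓔, f g * h ∈ 𝓔)
    (hY₀ : ∀ g h, f g * h ∈ Y₀ ↔ h ∈ Y₀) (hY₂ : ∀ g h, f g * h ∈ Y₂ ↔ h ∈ Y₂)
    (hY₁ : ∀ g h, f g * h ∈ Y₁ ↔ h ∈ Y₁)
    (r₀ : ∀ g h, h * f g ∈ Y₀ ↔ h ∈ Y₀) (r₂ : ∀ g h, h * f g ∈ Y₂ ↔ h ∈ Y₂)
    (r₁ : ∀ g h, h * f g ∈ Y₁ ↔ h ∈ Y₁)
    (d₀₂ : ∀ h ∈ Y₀, h ∉ Y₂) (d₀₁ : ∀ h ∈ Y₀, h ∉ Y₁) (d₂₁ : ∀ h ∈ Y₂, h ∉ Y₁)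
    (cov : ∀ h, h ∈ Y₀ ∨ h ∈ Y₂ ∨ h ∈ Y₁)
    (c₂ : ∀ x : κ → MonoidAlgebra k H, SupV 𝓔 x → SupV 𝓔 (prj Xm Ym Y₂ x))
    (c₁ : ∀ x : κ → MonoidAlgebra k H, SupV 𝓔 x → SupV 𝓔 (prj Xm Ym Y₁ x)) :
    Nonempty ((fixSub f Xm Ym 𝓔 Y₀ hE hY₀ × (fixSub f Xm Ym 𝓔 Y₂ hE hY₂ ×
      fixSub f Xm Ym 𝓔 Y₁ hE hY₁)) ≃ₗ[MonoidAlgebra k G] supSub (k := k) f κ 𝓔 hE) := by
  have hsum : ∀ x : κ → MonoidAlgebra k H,
      x = prj Xm Ym Y₀ x + (prj Xm Ym Y₂ x + prj Xm Ym Y₁ x) := by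
    intro x
    rw [← prj_union Xm Ym d₂₁, ← prj_union Xm Ym (fun h hh hu => hu.elim (d₀₂ h hh) (d₀₁ h hh))]
    have h1 : Y₀ ∪ (Y₂ ∪ Y₁) = Set.univ := Set.eq_univ_of_forall fun h => cov h
    rw [h1, prj_univ Xm Ym hYX]
  have c₀ : ∀ x : κ → MonoidAlgebra k H, SupV 𝓔 x → SupV 𝓔 (prj Xm Ym Y₀ x) := by
    intro x hx
    have h1 : prj Xm Ym Y₀ x = x - (prj Xm Ym Y₂ x + prj Xm Ym Y₁ x) :=
      eq_sub_of_add_eq (hsum x).symm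
    rw [h1]
    exact hx.sub ((c₂ x hx).add (c₁ x hx))
  have hdis : ∀ (A B : Set H), (∀ g h, h * f g ∈ B ↔ h ∈ B) → (∀ h ∈ A, h ∉ B) →
      ∀ x : κ → MonoidAlgebra k H, prj Xm Ym B x = x → prj Xm Ym A x = 0 := by
    intro A B rB hAB x hx
    rw [← hx, prj_prj' f Xm Ym hXY hYX A rB]
    have h1 : A ∩ B = ∅ := Set.eq_empty_iff_forall_notMem.2 fun h hh => hAB h hh.1 hh.2
    rw [h1, prj_empty]
  have hidem : ∀ (A : Set H), (∀ g h, h * f g ∈ A ↔ h ∈ A) → ∀ x : κ → MonoidAlgebra k H,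
      prj Xm Ym A (prj Xm Ym A x) = prj Xm Ym A x := by
    intro A rA x
    rw [prj_prj' f Xm Ym hXY hYX A rA, Set.inter_self]
  let ψ : (fixSub f Xm Ym 𝓔 Y₀ hE hY₀ × (fixSub f Xm Ym 𝓔 Y₂ hE hY₂ ×
      fixSub f Xm Ym 𝓔 Y₁ hE hY₁)) →ₗ[MonoidAlgebra k G] supSub (k := k) f κ 𝓔 hE :=
    { toFun := fun y => ⟨y.1.1 + (y.2.1.1 + y.2.2.1),
        SupV.add y.1.2.1 (SupV.add y.2.1.2.1 y.2.2.2.1)⟩
      map_add' := fun y y' => Subtype.ext (by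
        show (y.1.1 + y'.1.1) + ((y.2.1.1 + y'.2.1.1) + (y.2.2.1 + y'.2.2.1)) =
          (y.1.1 + (y.2.1.1 + y.2.2.1)) + (y'.1.1 + (y'.2.1.1 + y'.2.2.1))
        abel)
      map_smul' := fun c y => Subtype.ext (by
        show c • y.1.1 + (c • y.2.1.1 + c • y.2.2.1) = c • (y.1.1 + (y.2.1.1 + y.2.2.1))
        rw [smul_add, smul_add]) }
  refine ⟨LinearEquiv.ofBijective ψ ⟨?_, ?_⟩⟩
  · refine (injective_iff_map_eq_zero ψ).2 ?_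
    rintro ⟨⟨a, ha⟩, ⟨b, hb⟩, ⟨c, hc⟩⟩ h0
    have h1 : LL.v a + (LL.v b + LL.v c) = 0 := congrArg Subtype.val h0
    have hpa : prj Xm Ym Y₀ (LL.v a) = LL.v a := ha.2
    have hpb : prj Xm Ym Y₂ (LL.v b) = LL.v b := hb.2
    have hpc : prj Xm Ym Y₁ (LL.v c) = LL.v c := hc.2
    have e0 := congrArg (prj Xm Ym Y₀) h1
    rw [prj_add, prj_add, prj_zero, hpa, hdis Y₀ Y₂ r₂ d₀₂ _ hpb, hdis Y₀ Y₁ r₁ d₀₁ _ hpc,
      add_zero, add_zero] at e0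
    have e2 := congrArg (prj Xm Ym Y₂) h1
    rw [prj_add, prj_add, prj_zero, hpb, hdis Y₂ Y₀ r₀ (fun h h2 h0 => d₀₂ h h0 h2) _ hpa,
      hdis Y₂ Y₁ r₁ d₂₁ _ hpc, add_zero, zero_add] at e2
    have e1 := congrArg (prj Xm Ym Y₁) h1
    rw [prj_add, prj_add, prj_zero, hpc, hdis Y₁ Y₀ r₀ (fun h h1 h0 => d₀₁ h h0 h1) _ hpa,
      hdis Y₁ Y₂ r₂ (fun h h1 h2 => d₂₁ h h2 h1) _ hpb, zero_add, zero_add] at e1
    exact Prod.ext (Subtype.ext e0) (Prod.ext (Subtype.ext e2) (Subtype.ext e1))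
  · rintro ⟨x, hx⟩
    refine ⟨⟨⟨prj Xm Ym Y₀ x, c₀ x hx, hidem Y₀ r₀ x⟩, ⟨prj Xm Ym Y₂ x, c₂ x hx, hidem Y₂ r₂ x⟩,
      ⟨prj Xm Ym Y₁ x, c₁ x hx, hidem Y₁ r₁ x⟩⟩, Subtype.ext (hsum x).symm⟩

end FixSub

theorem t_core (hIND : S_IND) (hTREE : S_TREE) (hMOD : S_MOD) (hMOD2 : S_MOD2)
    (hFREEC : S_FREEC) (hSFIN : S_SFIN) (hWALL : S_WALL) (hPP : S_PP) : S_CORE := by
  classical
  have hFLAG := t_flag hIND hMOD hFREEC hSFIN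
  intro k _ B _ A₁ A₂ φ hA₁ hA₂ hH n e he
  obtain ⟨Hp, hS⟩ := hTREE B A₁ A₂ φ
  let f : B →* HNNExtension B A₁ A₂ φ := HNNExtension.of
  have hf : Function.Injective f := HNNExtension.of_injective φ
  have hfg : ∀ b, f b = HNNExtension.of b := fun b => rfl
  obtain ⟨m, r, Xm, Ym, hXY, hYX⟩ := hH n (e.map (mR k f)) (by rw [← Matrix.map_mul, he])
  let e' : Matrix (Fin n ⊕ Fin m) (Fin n ⊕ Fin m) (MonoidAlgebra k B) := Matrix.fromBlocks e 0 0 1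
  have he' : e' * e' = e' := by
    show Matrix.fromBlocks e 0 0 1 * Matrix.fromBlocks e 0 0 1 = Matrix.fromBlocks e 0 0 1
    rw [Matrix.fromBlocks_multiply]
    simp [he]
  have hXY' : Xm * Ym = e'.map (mR k f) := by
    rw [hXY]
    show _ = (Matrix.fromBlocks e 0 0 1).map (mR k f)
    have z1 : (0 : Matrix (Fin n) (Fin m) (MonoidAlgebra k B)).map (mR k f) = 0 :=
      Matrix.map_zero _ (map_zero _)
    have z2 : (0 : Matrix (Fin m) (Fin n) (MonoidAlgebra k B)).map (mR k f) = 0 :=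
      Matrix.map_zero _ (map_zero _)
    have z3 : (1 : Matrix (Fin m) (Fin m) (MonoidAlgebra k B)).map (mR k f) = 1 :=
      Matrix.map_one _ (map_zero _) (map_one _)
    rw [Matrix.fromBlocks_map, z1, z2, z3]
  obtain ⟨𝓔, 𝓓₂, 𝓓₁, E₀, D₂, D₁, ⟨hE, hE₀, hEX⟩, ⟨hDE₂, hD₂, hD₂', hp₂⟩, ⟨hDE₁, hD₁, hD₁', hp₁⟩⟩ :=
    hWALL k B A₁ A₂ φ Hp hS (Fin n ⊕ Fin m) (Fin r) Xm Ym hYX
  let X₁ : Set (HNNExtension B A₁ A₂ φ) := {h | HNNExtension.t * h ∉ Hp}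
  -- the relation `t a = φ(a) t`
  have ht : ∀ a : A₁, (HNNExtension.t : HNNExtension B A₁ A₂ φ) * HNNExtension.of (a : B) =
      HNNExtension.of ((φ a : A₂) : B) * HNNExtension.t := fun a => HNNExtension.t_mul_of a
  -- flag lemma for `Hp`
  obtain ⟨c₂, s₂⟩ := hFLAG k B (HNNExtension B A₁ A₂ φ) f hf A₂ Hp 𝓔 𝓓₂ D₂ (Fin n ⊕ Fin m) (Fin r)
    e' Xm Ym hXY' hYX (fun g h => hS.right h g) (fun c hc h => hS.left c h hc)
    (fun h g g' h1 h2 => hS.unique_out h g g' h1 h2) hE hDE₂ hD₂ hD₂' hp₂ hA₂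
  -- flag lemma for `X₁`
  obtain ⟨c₁, s₁⟩ := hFLAG k B (HNNExtension B A₁ A₂ φ) f hf A₁ X₁ 𝓔 𝓓₁ D₁ (Fin n ⊕ Fin m) (Fin r)
    e' Xm Ym hXY' hYX
    (fun g h => by
      show HNNExtension.t * (h * HNNExtension.of g) ∉ Hp ↔ HNNExtension.t * h ∉ Hp
      rw [← mul_assoc, hS.right])
    (fun c hc h => by
      show HNNExtension.t * (HNNExtension.of c * h) ∉ Hp ↔ HNNExtension.t * h ∉ Hp
      have h1 := ht ⟨c, hc⟩
      rw [← mul_assoc, h1, mul_assoc, hS.left _ _ (φ ⟨c, hc⟩).2])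
    (fun h g g' h1 h2 => by
      refine hS.unique_in h g g' ?_ ?_
      · rw [mul_assoc]; exact h1
      · rw [mul_assoc]; exact h2) hE hDE₁ hD₁ hD₁' hp₁ hA₁
  -- the three parts
  have hleftU : ∀ (X : Set (HNNExtension B A₁ A₂ φ)) g h, f g * h ∈ UU f X ↔ h ∈ UU f X := by
    intro X g h
    constructor
    · rintro ⟨b, hb⟩
      refine ⟨g⁻¹ * b, ?_⟩
      rw [map_mul, map_inv, _root_.mul_inv_rev, inv_inv, mul_assoc]
      exact hb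
    · rintro ⟨b, hb⟩
      refine ⟨g * b, ?_⟩
      rw [map_mul, _root_.mul_inv_rev, mul_assoc, inv_mul_cancel_left]
      exact hb
  have hrightU : ∀ (X : Set (HNNExtension B A₁ A₂ φ)), (∀ g h, h * f g ∈ X ↔ h ∈ X) →
      ∀ g h, h * f g ∈ UU f X ↔ h ∈ UU f X := by
    intro X hX g h
    constructor
    · rintro ⟨b, hb⟩
      exact ⟨b, by rwa [← mul_assoc, hX] at hb⟩
    · rintro ⟨b, hb⟩
      exact ⟨b, by rwa [← mul_assoc, hX]⟩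
  have rX₁ : ∀ g h, h * f g ∈ X₁ ↔ h ∈ X₁ := by
    intro g h
    show HNNExtension.t * (h * HNNExtension.of g) ∉ Hp ↔ HNNExtension.t * h ∉ Hp
    rw [← mul_assoc, hS.right]
  have hY₀ : ∀ g h, f g * h ∈ Set.range f ↔ h ∈ Set.range f := by
    intro g h
    constructor
    · rintro ⟨b, hb⟩
      exact ⟨g⁻¹ * b, by rw [map_mul, map_inv, hb, inv_mul_cancel_left]⟩
    · rintro ⟨b, rfl⟩
      exact ⟨g * b, map_mul _ _ _⟩
  have r₀ : ∀ g h, h * f g ∈ Set.range f ↔ h ∈ Set.range f := by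
    intro g h
    constructor
    · rintro ⟨b, hb⟩
      exact ⟨b * g⁻¹, by rw [map_mul, map_inv, hb, mul_inv_cancel_right]⟩
    · rintro ⟨b, rfl⟩
      exact ⟨b * g, map_mul _ _ _⟩
  have d₀₂ : ∀ h ∈ Set.range f, h ∉ UU f Hp := by
    rintro _ ⟨b, rfl⟩ ⟨b', hb'⟩
    rw [← map_inv, ← map_mul, ← one_mul (f (b'⁻¹ * b)), hfg, hS.right] at hb'
    exact hS.one hb'
  have d₀₁ : ∀ h ∈ Set.range f, h ∉ UU f X₁ := by
    rintro _ ⟨b, rfl⟩ ⟨b', hb'⟩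
    rw [← map_inv, ← map_mul] at hb'
    refine hb' ?_
    show HNNExtension.t * HNNExtension.of (b'⁻¹ * b) ∈ Hp
    rw [hS.right]
    exact hS.t_mem
  have d₂₁ : ∀ h ∈ UU f Hp, h ∉ UU f X₁ := by
    rintro h ⟨b, hb⟩ ⟨b', hb'⟩
    refine hS.out_in h b b' hb ?_
    rw [mul_assoc]; exact hb'
  have cov : ∀ h, h ∈ Set.range f ∨ h ∈ UU f Hp ∨ h ∈ UU f X₁ := by
    intro h
    rcases hS.cover h with ⟨b, hb⟩ | ⟨b, hb⟩ | ⟨b, hb⟩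
    · exact Or.inl ⟨b, hb.symm⟩
    · exact Or.inr (Or.inl ⟨b, hb⟩)
    · refine Or.inr (Or.inr ⟨b, ?_⟩)
      show HNNExtension.t * ((HNNExtension.of b)⁻¹ * h) ∉ Hp
      rw [← mul_assoc]; exact hb
  obtain ⟨E3⟩ := three_parts f Xm Ym hXY' hYX 𝓔 (Set.range f) (UU f Hp) (UU f X₁) hE hY₀
    (hleftU Hp) (hleftU X₁) r₀ (hrightU Hp (fun g h => hS.right h g)) (hrightU X₁ rX₁)
    d₀₂ d₀₁ d₂₁ cov c₂ c₁
  obtain ⟨nE, ⟨eE⟩⟩ := hFREEC k B (HNNExtension B A₁ A₂ φ) f hf (Fin r) 𝓔 E₀ hE hE₀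
    (supSub f (Fin r) 𝓔 hE) (fun x => Iff.rfl)
  have hN₂ := s₂ (fixSub f Xm Ym 𝓔 (UU f Hp) hE (hleftU Hp)) (fun x => Iff.rfl)
  have hN₁ := s₁ (fixSub f Xm Ym 𝓔 (UU f X₁) hE (hleftU X₁)) (fun x => Iff.rfl)
  have hP' := sfm_complement E3 nE eE hN₁ hN₂
  let P : Submodule (MonoidAlgebra k B) (Fin n ⊕ Fin m → MonoidAlgebra k B) :=
    { carrier := {x | x ᵥ* e' = x}
      zero_mem' := Matrix.zero_vecMul _
      add_mem' := fun {x y} hx hy => by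
        show (x + y) ᵥ* e' = x + y
        rw [Matrix.add_vecMul]
        exact congrArg₂ (· + ·) hx hy
      smul_mem' := fun c {x} hx => by
        show (c • x) ᵥ* e' = c • x
        rw [smul_vecMul']
        exact congrArg (fun z => c • z) hx }
  obtain ⟨eP⟩ := hPP k B (HNNExtension B A₁ A₂ φ) f hf (Fin n ⊕ Fin m) (Fin r) e' Xm Ym he' hXY' hYX
    𝓔 hE hEX P (fun x => Iff.rfl) (fixSub f Xm Ym 𝓔 (Set.range f) hE hY₀) (fun x => Iff.rfl)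
  have hSFP : SFm (MonoidAlgebra k B) P := Pool.Agent.Helper20.KZ.SFm_congr eP.symm hP'
  exact sf_of_blocks ((hMOD2 (MonoidAlgebra k B) (Fin n ⊕ Fin m) e' he' P (fun x => Iff.rfl)).2 hSFP)

end Pool.Agent.Helper5.KZ
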