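import Pool.Agent.Helper5.KZ.Core
import Pool.Agent.Helper4.KZ.Wall
import Pool.Agent.Helper19.KZ.FreeFin
import Pool.Agent.Helper19.KZ.PP
import Pool.Agent.Helper20.KZ.Freec
import Pool.Agent.Helper36.KZ.TreeP
import Pool.Agent.Helper64.KZ.Glue
import Pool.Agent.Helper71.KZ.SFin
import Pool.Agent.Helper80.KZ.Ind

set_option autoImplicit false

namespace Pool.Agent.Helper5.KZ

open Pool.Agent.Helper5.FJ

theorem core : S_CORE :=
  t_core Pool.Agent.Helper80.KZ.t_ind Pool.Agent.Helper36.KZ.t_tree Pool.Agent.Helper20.KZ.t_mod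
    Pool.Agent.Helper20.KZ.t_mod2 Pool.Agent.Helper20.KZ.t_freec Pool.Agent.Helper71.KZ.t_sfin
    Pool.Agent.Helper4.KZ.t_WALL Pool.Agent.Helper19.KZ.t_pp

theorem final (k : Type) [DivisionRing k] (h : K0Triv (MonoidAlgebra k HH)) (G : Type) [Group G]
    (hG : TF G) : K0Triv (MonoidAlgebra k G) :=
  Pool.Agent.Helper64.KZ.t_glue Pool.Agent.Helper19.KZ.t_free core k h G hG

end Pool.Agent.Helper5.KZ

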