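import Pool.Agent.Helper5.KZ.Stm3

/-!
# Piece FLAG
-/

set_option autoImplicit false

open MonoidAlgebra Matrix

namespace Pool.Agent.Helper5.KZ

/-- The underlying vector. -/
@[reducible] def LL.v {R' S : Type} [Ring R'] [Ring S] {f : R' →+* S} {κ : Type} (x : LL f κ) :
    κ → S := x

section Basic

variable {k : Type} [DivisionRing k] {G H : Type} [Group G] [Group H] (f : G →* H)

theorem mR_single (g : G) (a : k) :
    mR k f (MonoidAlgebra.single g a) = MonoidAlgebra.single (f g) a := by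
  show MonoidAlgebra.mapDomain f (MonoidAlgebra.single g a) = _
  exact MonoidAlgebra.mapDomain_single

theorem mR_eq_sum (r : MonoidAlgebra k G) :
    mR k f r = ∑ g ∈ r.coeff.support, MonoidAlgebra.single (f g) (r.coeff g) := by
  have h1 : r = ∑ b ∈ r.coeff.support, MonoidAlgebra.single b (r.coeff b) :=
    (MonoidAlgebra.sum_coeff_single r).symm
  conv_lhs => rw [h1]
  rw [map_sum]
  exact Finset.sum_congr rfl fun g _ => mR_single f g _

theorem mR_coeff_ne {r : MonoidAlgebra k G} {h : H} (hh : (mR k f r).coeff h ≠ 0) :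
    ∃ g, r.coeff g ≠ 0 ∧ h = f g := by
  classical
  by_contra hcon
  push Not at hcon
  apply hh
  rw [mR_eq_sum, MonoidAlgebra.coeff_sum, Finsupp.finsetSum_apply]
  refine Finset.sum_eq_zero fun g hg => ?_
  rw [MonoidAlgebra.coeff_single, Finsupp.single_apply]
  exact if_neg fun h' => hcon g (Finsupp.mem_support_iff.1 hg) h'.symm

variable {κ : Type}

theorem mR_smul_eq_sum (r : MonoidAlgebra k G) (x : κ → MonoidAlgebra k H) :
    mR k f r • x = ∑ g ∈ r.coeff.support, MonoidAlgebra.single (f g) (r.coeff g) • x := by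
  rw [mR_eq_sum, Finset.sum_smul]

theorem supV_mR_smul {X : Set H} (hX : ∀ g, ∀ h ∈ X, f g * h ∈ X) (r : MonoidAlgebra k G)
    {x : κ → MonoidAlgebra k H} (hx : SupV X x) : SupV X (mR k f r • x) := by
  rw [mR_smul_eq_sum]
  refine SupV.sum _ fun g _ => SupV.single_smul _ _ ?_
  exact hx.mono fun h hh => hX g h hh

variable {ι : Type} [Fintype ι] [Fintype κ] [DecidableEq κ]
  (Xm : Matrix ι κ (MonoidAlgebra k H)) (Ym : Matrix κ ι (MonoidAlgebra k H))

theorem prj_mR_smul {X : Set H} (hX : ∀ g h, f g * h ∈ X ↔ h ∈ X) (r : MonoidAlgebra k G)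
    (x : κ → MonoidAlgebra k H) :
    prj Xm Ym X (mR k f r • x) = mR k f r • prj Xm Ym X x := by
  rw [mR_smul_eq_sum, mR_smul_eq_sum, prj_sum]
  refine Finset.sum_congr rfl fun g _ => ?_
  rw [prj_single_smul]
  congr 2
  ext h
  exact hX g h

theorem prj_empty (x : κ → MonoidAlgebra k H) : prj Xm Ym ∅ x = 0 := by
  have h1 : ∀ z : ι → MonoidAlgebra k H, resV ∅ z = 0 := fun z =>
    funext fun i => ma_ext fun h => res_coeff_not_mem _ (Set.notMem_empty h)
  rw [prj, h1, Matrix.zero_vecMul]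

variable {e : Matrix ι ι (MonoidAlgebra k G)}

theorem prj_prj' (hXY : Xm * Ym = e.map (mR k f)) (hYX : Ym * Xm = 1)
    (X : Set H) {X' : Set H} (hX' : ∀ g h, h * f g ∈ X' ↔ h ∈ X') (x : κ → MonoidAlgebra k H) :
    prj Xm Ym X (prj Xm Ym X' x) = prj Xm Ym (X ∩ X') x := by
  refine prj_prj Xm Ym hXY hYX X (fun i j b hb h => ?_) x
  obtain ⟨g, -, rfl⟩ := mR_coeff_ne f hb
  exact hX' g h

end Basic

section Decomp

variable {k : Type} [DivisionRing k] {G H : Type} [Group G] [Group H] (f : G →* H)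
  (C : Subgroup G) (X : Set H)
  {ι κ : Type} [Fintype ι] [Fintype κ] [DecidableEq κ]

theorem resV_UU (hleft : ∀ c ∈ C, ∀ h, f c * h ∈ X ↔ h ∈ X)
    (huniq : ∀ h g g', (f g)⁻¹ * h ∈ X → (f g')⁻¹ * h ∈ X → g⁻¹ * g' ∈ C)
    (z : ι → MonoidAlgebra k H) :
    ∃ s : Finset (G ⧸ C), resV (UU f X) z = ∑ q ∈ s, resV {h | (f q.out)⁻¹ * h ∈ X} z := by
  classical
  let qq : H → G ⧸ C := fun h => if hh : h ∈ UU f X then ((Classical.choose hh : G) : G ⧸ C) else ((1 : G) : G ⧸ C)
  have hqq : ∀ h ∈ UU f X, (f (qq h).out)⁻¹ * h ∈ X := by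
    intro h hh
    have h1 : (f (Classical.choose hh))⁻¹ * h ∈ X := Classical.choose_spec hh
    have h2 : qq h = ((Classical.choose hh : G) : G ⧸ C) := dif_pos hh
    have h3 : (Classical.choose hh)⁻¹ * (qq h).out ∈ C := by
      rw [← QuotientGroup.eq, ← h2, QuotientGroup.out_eq']
    have h4 := (hleft _ (C.inv_mem h3) ((f (Classical.choose hh))⁻¹ * h)).2 h1
    rwa [_root_.mul_inv_rev, inv_inv, map_mul, map_inv, mul_assoc, mul_inv_cancel_left] at h4
  have hun : ∀ (h : H) (q : G ⧸ C), (f q.out)⁻¹ * h ∈ X → h ∈ UU f X ∧ q = qq h := by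
    intro h q hq
    have hh : h ∈ UU f X := ⟨q.out, hq⟩
    refine ⟨hh, ?_⟩
    have h1 := huniq h _ _ hq (hqq h hh)
    rw [← QuotientGroup.out_eq' q, ← QuotientGroup.out_eq' (qq h), QuotientGroup.eq]
    exact h1
  refine ⟨(Finset.univ.biUnion fun i => (z i).coeff.support).image qq, ?_⟩
  refine funext fun i => ma_ext fun h => ?_
  rw [Finset.sum_apply, MonoidAlgebra.coeff_sum, Finsupp.finsetSum_apply]
  by_cases hh : h ∈ UU f X
  · have e1 : (resV (UU f X) z i).coeff h = (z i).coeff h := res_coeff_mem _ hh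
    rw [e1]
    by_cases hz : (z i).coeff h = 0
    · rw [hz]
      symm
      refine Finset.sum_eq_zero fun q _ => ?_
      by_cases hq : h ∈ {h | (f q.out)⁻¹ * h ∈ X}
      · exact (res_coeff_mem _ hq).trans hz
      · exact res_coeff_not_mem _ hq
    · have hm : qq h ∈ (Finset.univ.biUnion fun i => (z i).coeff.support).image qq :=
        Finset.mem_image_of_mem _ (Finset.mem_biUnion.2
          ⟨i, Finset.mem_univ _, Finsupp.mem_support_iff.2 hz⟩)
      rw [Finset.sum_eq_single_of_mem _ hm]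
      · exact (res_coeff_mem (z i) (X := {h' | (f (qq h).out)⁻¹ * h' ∈ X}) (hqq h hh)).symm
      · intro q _ hne
        refine res_coeff_not_mem _ fun hq => hne ?_
        exact (hun h q hq).2
  · rw [show (resV (UU f X) z i).coeff h = 0 from res_coeff_not_mem _ hh]
    symm
    refine Finset.sum_eq_zero fun q _ => ?_
    exact res_coeff_not_mem _ fun hq => hh (hun h q hq).1

variable (Xm : Matrix ι κ (MonoidAlgebra k H)) (Ym : Matrix κ ι (MonoidAlgebra k H))

theorem vecMul_sum' {α : Type} (s : Finset α) (v : α → ι → MonoidAlgebra k H) :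
    (∑ a ∈ s, v a) ᵥ* Xm = ∑ a ∈ s, v a ᵥ* Xm := by
  classical
  induction s using Finset.induction_on with
  | empty => simp
  | insert a s ha ih => rw [Finset.sum_insert ha, Finset.sum_insert ha, Matrix.add_vecMul, ih]

/-- The decomposition of the projection attached to the union of the translates. -/
theorem prj_UU (hleft : ∀ c ∈ C, ∀ h, f c * h ∈ X ↔ h ∈ X)
    (huniq : ∀ h g g', (f g)⁻¹ * h ∈ X → (f g')⁻¹ * h ∈ X → g⁻¹ * g' ∈ C)
    (x : κ → MonoidAlgebra k H) :
    ∃ s : Finset (G ⧸ C), prj Xm Ym (UU f X) x = ∑ q ∈ s, MonoidAlgebra.single (f q.out) (1 : k) •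
      prj Xm Ym X (MonoidAlgebra.single (f q.out)⁻¹ (1 : k) • x) := by
  obtain ⟨s, hs⟩ := resV_UU (k := k) f C X hleft huniq (x ᵥ* Ym)
  refine ⟨s, ?_⟩
  rw [prj, hs, vecMul_sum']
  refine Finset.sum_congr rfl fun q _ => ?_
  have h1 : x = MonoidAlgebra.single (f q.out) (1 : k) •
      (MonoidAlgebra.single (f q.out)⁻¹ (1 : k) • x) := by
    rw [smul_smul, MonoidAlgebra.single_mul_single, mul_inv_cancel, one_mul,
      ← MonoidAlgebra.one_def, one_smul]
  show prj Xm Ym {h | (f q.out)⁻¹ * h ∈ X} x = _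
  conv_lhs => rw [h1]
  rw [prj_single_smul]
  congr 2
  ext h
  show (f q.out)⁻¹ * (f q.out * h) ∈ X ↔ h ∈ X
  rw [inv_mul_cancel_left]

end Decomp

section Main

theorem mR_comp {k : Type} [DivisionRing k] {G H : Type} [Group G] [Group H] (f : G →* H)
    (C : Subgroup G) (c : MonoidAlgebra k C) :
    mR k (f.comp C.subtype) c = mR k f (mR k C.subtype c) := by
  rw [mR_eq_sum, mR_eq_sum C.subtype, map_sum]
  refine Finset.sum_congr rfl fun g _ => ?_
  rw [mR_single]; rfl

theorem single_smul_eq_zero {k : Type} [DivisionRing k] {H : Type} [Group H] {κ : Type} (h : H)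
    {x : κ → MonoidAlgebra k H} (hx : MonoidAlgebra.single h (1 : k) • x = 0) : x = 0 := by
  have h1 : MonoidAlgebra.single h⁻¹ (1 : k) • (MonoidAlgebra.single h (1 : k) • x) = 0 := by
    rw [hx, smul_zero]
  rwa [smul_smul, MonoidAlgebra.single_mul_single, inv_mul_cancel, one_mul,
    ← MonoidAlgebra.one_def, one_smul] at h1

theorem t_flag (hIND : S_IND) (hMOD : S_MOD) (hFREEC : S_FREEC) (hSFIN : S_SFIN) : S_FLAG := by
  classical
  intro k _ G H _ _ f hf C X 𝓔 𝓓 D₀ ι κ _ _ _ _ e Xm Ym hXY hYX hright hleft huniq hE hDE hD hD₀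
    hprj hK
  have hXU : X ⊆ UU f X := fun h hh => ⟨1, by simpa using hh⟩
  have hsm : ∀ (g : G) (a : k) (x : κ → MonoidAlgebra k H), SupV 𝓔 x →
      SupV 𝓔 (MonoidAlgebra.single (f g) a • x) := fun g a x hx =>
    SupV.single_smul _ _ (hx.mono fun h hh => hE g h hh)
  have hfst : ∀ x : κ → MonoidAlgebra k H, SupV 𝓔 x → SupV 𝓔 (prj Xm Ym (UU f X) x) := by
    intro x hx
    obtain ⟨s, hs⟩ := prj_UU f C X Xm Ym hleft huniq x
    rw [hs]
    refine SupV.sum _ fun q _ => hsm _ _ _ ((hprj _ ?_).mono hDE)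
    rw [← map_inv]
    exact hsm _ _ _ hx
  refine ⟨hfst, fun N hN => ?_⟩
  -- fixed vectors of `prj X`
  have hfix : ∀ x : κ → MonoidAlgebra k H, prj Xm Ym X (prj Xm Ym X x) = prj Xm Ym X x := by
    intro x
    rw [prj_prj' f Xm Ym hXY hYX X hright, Set.inter_self]
  have hfixU : ∀ x : κ → MonoidAlgebra k H, prj Xm Ym X x = x → prj Xm Ym (UU f X) x = x := by
    intro x hx
    conv_lhs => rw [← hx]
    rw [prj_prj' f Xm Ym hXY hYX _ hright, Set.inter_eq_self_of_subset_right hXU, hx]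
  have hinN : ∀ x : κ → MonoidAlgebra k H, SupV 𝓓 x → prj Xm Ym X x = x →
      (x : LL (mR k f) κ) ∈ N := fun x h1 h2 => (hN x).2 ⟨h1.mono hDE, hfixU x h2⟩
  -- the subgroup `N₀`
  let N₀ : AddSubgroup N :=
    { carrier := {y | SupV (k := k) (ι := κ) 𝓓 y.1 ∧ prj Xm Ym X y.1 = y.1}
      zero_mem' := ⟨SupV.zero, prj_zero Xm Ym X⟩
      add_mem' := fun {y y'} hy hy' => ⟨hy.1.add hy'.1, by
        have h1 := prj_add Xm Ym X y.1 y'.1
        rw [hy.2, hy'.2] at h1
        exact h1⟩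
      neg_mem' := fun {y} hy => ⟨hy.1.neg, by
        have h1 := map_neg (prjHom Xm Ym X) y.1
        exact h1.trans (congrArg Neg.neg hy.2)⟩ }
  have hN₀ : ∀ y : N, y ∈ N₀ ↔ SupV (k := k) (ι := κ) 𝓓 y.1 ∧ prj Xm Ym X y.1 = y.1 := fun y => Iff.rfl
  -- the module `N₁` over `k[C]`
  let f' : C →* H := f.comp C.subtype
  have hX' : ∀ (g : C) (h : H), f' g * h ∈ X ↔ h ∈ X := fun g h => hleft g.1 g.2 h
  let ND : Submodule (MonoidAlgebra k C) (LL (mR k f') κ) :=
    { carrier := {x | SupV (k := k) (ι := κ) 𝓓 x}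
      zero_mem' := SupV.zero
      add_mem' := fun {y y'} hy hy' => hy.add hy'
      smul_mem' := fun c {y} hy => supV_mR_smul f' (fun g h hh => hD g.1 g.2 h hh) c hy }
  let N₁ : Submodule (MonoidAlgebra k C) (LL (mR k f') κ) :=
    { carrier := {x | SupV (k := k) (ι := κ) 𝓓 x ∧ prj Xm Ym X x = x}
      zero_mem' := ⟨SupV.zero, prj_zero Xm Ym X⟩
      add_mem' := fun {y y'} hy hy' => ⟨hy.1.add hy'.1, by
        have h1 := prj_add Xm Ym X y y'
        rw [hy.2, hy'.2] at h1
        exact h1⟩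
      smul_mem' := fun c {y} hy => ⟨supV_mR_smul f' (fun g h hh => hD g.1 g.2 h hh) c hy.1,
        (prj_mR_smul f' Xm Ym hX' c y).trans (congrArg (fun z : κ → MonoidAlgebra k H =>
          mR k f' c • z) hy.2)⟩ }
  obtain ⟨b, ⟨eb⟩⟩ := hFREEC k C H f' (hf.comp Subtype.val_injective) κ 𝓓 D₀
    (fun g h hh => hD g.1 g.2 h hh)
    (fun h hh => by
      obtain ⟨c, hc, d, hd, he⟩ := hD₀ h hh
      exact ⟨⟨c, hc⟩, d, hd, he⟩) ND (fun x => Iff.rfl)
  let π : ND →ₗ[MonoidAlgebra k C] N₁ :=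
    { toFun := fun x => ⟨prj Xm Ym X x.1, hprj _ (SupV.mono hDE x.2), hfix _⟩
      map_add' := fun x y => Subtype.ext (prj_add Xm Ym X x.1 y.1)
      map_smul' := fun c x => Subtype.ext (prj_mR_smul f' Xm Ym hX' c x.1) }
  let σ : N₁ →ₗ[MonoidAlgebra k C] ND :=
    { toFun := fun x => ⟨x.1, x.2.1⟩
      map_add' := fun x y => rfl
      map_smul' := fun c x => rfl }
  have hπσ : π ∘ₗ σ = LinearMap.id := LinearMap.ext fun x => Subtype.ext x.2.2
  have : Module.Projective (MonoidAlgebra k C) ND := Module.Projective.of_equiv eb.symm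
  have : Module.Finite (MonoidAlgebra k C) ND := Module.Finite.equiv eb.symm
  have : Module.Projective (MonoidAlgebra k C) N₁ := Module.Projective.of_split σ π hπσ
  have : Module.Finite (MonoidAlgebra k C) N₁ :=
    Module.Finite.of_surjective π fun x => ⟨σ x, LinearMap.congr_fun hπσ x⟩
  have hSF₁ : SFm (MonoidAlgebra k C) N₁ := (hMOD _).2 hK N₁
  -- the explicit form
  let i : N₁ →+ N :=
    { toFun := fun x => ⟨x.1, hinN x.1 x.2.1 x.2.2⟩
      map_zero' := rfl
      map_add' := fun x y => rfl }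
  have hSFin : SFin (k := k) C N₀ := by
    refine hSFIN k G C N N₀ N₁ i ?_ ?_ ?_ hSF₁
    · intro x y hxy
      have h0 : LL.v x.1 = LL.v y.1 := congrArg (fun w : N => LL.v w.1) hxy
      exact Subtype.ext h0
    · intro y
      constructor
      · intro hy
        exact ⟨⟨y.1, hy⟩, rfl⟩
      · rintro ⟨x, rfl⟩
        exact x.2
    · intro c x
      refine Subtype.ext ?_
      show mR k f' c • LL.v x.1 = mR k f (mR k C.subtype c) • LL.v x.1
      rw [mR_comp]
  refine hIND k G C N N₀ ?_ ?_ ?_ hSFin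
  · -- closed under `C`
    intro g hg a x hx
    have h1 := (SupV.single_smul (f g) a (hx.1.mono fun h hh => hD g hg h hh) :
      SupV 𝓓 (MonoidAlgebra.single (f g) a • LL.v x.1))
    have h2 : LL.v (MonoidAlgebra.single g a • x : N).1 =
        MonoidAlgebra.single (f g) a • LL.v x.1 := by
      show mR k f (MonoidAlgebra.single g a) • LL.v x.1 = _
      rw [mR_single]
    refine (hN₀ _).2 ?_
    have h3 : {h | f g * h ∈ X} = X := by
      ext h; exact hleft g hg h
    have h4 : prj Xm Ym X (MonoidAlgebra.single (f g) a • LL.v x.1) =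
        MonoidAlgebra.single (f g) a • LL.v x.1 := by
      rw [prj_single_smul, h3]
      exact congrArg (fun w => MonoidAlgebra.single (f g) a • w) hx.2
    constructor
    · have := h1
      rw [← h2] at this
      exact this
    · have := h4
      rw [← h2] at this
      exact this
  · -- generation
    intro x
    obtain ⟨s, hs⟩ := prj_UU f C X Xm Ym hleft huniq x.1
    have hx := (hN x.1).1 x.2
    rw [hx.2] at hs
    have hy : ∀ q : G ⧸ C, SupV 𝓓 (prj Xm Ym X (MonoidAlgebra.single (f q.out)⁻¹ (1 : k) •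
        LL.v x.1)) := by
      intro q
      refine hprj _ ?_
      rw [← map_inv]
      exact hsm _ _ _ hx.1
    let y : G ⧸ C → N := fun q => ⟨prj Xm Ym X (MonoidAlgebra.single (f q.out)⁻¹ (1 : k) •
        LL.v x.1), hinN _ (hy q) (hfix _)⟩
    have h1 : x = ∑ q ∈ s, (MonoidAlgebra.single q.out (1 : k) • y q : N) := by
      refine Subtype.ext ?_
      rw [AddSubmonoidClass.coe_finsetSum]
      refine hs.trans (Finset.sum_congr rfl fun q _ => ?_)
      show _ = mR k f (MonoidAlgebra.single q.out (1 : k)) • LL.v (y q).1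
      rw [mR_single]
    rw [h1]
    exact sum_mem fun q _ => AddSubgroup.subset_closure ⟨q.out, y q, ⟨hy q, hfix _⟩, rfl⟩
  · -- independence
    intro s z hs hz hsum g₀ hg₀
    have h1 : ∑ g ∈ s, MonoidAlgebra.single (f g) (1 : k) • LL.v (z g).1 = 0 := by
      have h2 := congrArg Subtype.val hsum
      rw [AddSubmonoidClass.coe_finsetSum] at h2
      refine Eq.trans (Finset.sum_congr rfl fun g _ => ?_) h2
      show _ = mR k f (MonoidAlgebra.single g (1 : k)) • LL.v (z g).1
      rw [mR_single]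
    have h3 := congrArg (prj Xm Ym {h | (f g₀)⁻¹ * h ∈ X}) h1
    rw [prj_zero, prj_sum, Finset.sum_eq_single_of_mem g₀ hg₀] at h3
    · rw [prj_single_smul] at h3
      have h4 : {h | f g₀ * h ∈ {h | (f g₀)⁻¹ * h ∈ X}} = X := by
        ext h
        show (f g₀)⁻¹ * (f g₀ * h) ∈ X ↔ h ∈ X
        rw [inv_mul_cancel_left]
      rw [h4, (hz g₀ hg₀).2] at h3
      exact Subtype.ext (single_smul_eq_zero _ h3)
    · intro g hg hne
      have h5 : LL.v (z g).1 = prj Xm Ym X (LL.v (z g).1) := (hz g hg).2.symm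
      rw [prj_single_smul, h5, prj_prj' f Xm Ym hXY hYX _ hright]
      have h6 : {h | f g * h ∈ {h | (f g₀)⁻¹ * h ∈ X}} ∩ X = ∅ := by
        refine Set.eq_empty_iff_forall_notMem.2 ?_
        rintro h ⟨ha, hb⟩
        refine hne (hs g hg g₀ hg₀ (huniq (f g * h) g g₀ ?_ ha))
        rwa [inv_mul_cancel_left]
      rw [h6, prj_empty, smul_zero]

end Main

end Pool.Agent.Helper5.KZ
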