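import Pool.Agent.Helper5.KZ.Res

/-!
# The projections attached to an isomorphism
-/

set_option autoImplicit false

open MonoidAlgebra Matrix

namespace Pool.Agent.Helper5.KZ

section Vec

variable {k : Type} [DivisionRing k] {H : Type} [Group H] {ι κ : Type}

/-- Restriction of vectors. -/
noncomputable def resV (X : Set H) (z : ι → MonoidAlgebra k H) : ι → MonoidAlgebra k H :=
  fun i => res X (z i)

/-- Vectors with support in `X`. -/
def SupV (X : Set H) (z : ι → MonoidAlgebra k H) : Prop := ∀ i h, (z i).coeff h ≠ 0 → h ∈ X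

theorem resV_add (X : Set H) (z z' : ι → MonoidAlgebra k H) :
    resV X (z + z') = resV X z + resV X z' := funext fun i => res_add X _ _

theorem resV_zero (X : Set H) : resV X (0 : ι → MonoidAlgebra k H) = 0 :=
  funext fun _ => res_zero X

theorem resV_univ (z : ι → MonoidAlgebra k H) : resV Set.univ z = z :=
  funext fun i => res_univ _

theorem resV_resV (X X' : Set H) (z : ι → MonoidAlgebra k H) :
    resV X (resV X' z) = resV (X ∩ X') z := funext fun i => res_res X X' _

theorem resV_union {X X' : Set H} (hd : ∀ h ∈ X, h ∉ X') (z : ι → MonoidAlgebra k H) :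
    resV (X ∪ X') z = resV X z + resV X' z := funext fun i => res_union hd _

theorem resV_single_smul (X : Set H) (g : H) (a : k) (z : ι → MonoidAlgebra k H) :
    resV X (MonoidAlgebra.single g a • z) = MonoidAlgebra.single g a • resV {h | g * h ∈ X} z :=
  funext fun i => res_single_mul X g a _

theorem supV_resV (X : Set H) (z : ι → MonoidAlgebra k H) : SupV X (resV X z) := by
  intro i h hh
  by_contra hX
  exact hh (res_coeff_not_mem _ hX)

theorem resV_of_supV {X : Set H} {z : ι → MonoidAlgebra k H} (hz : SupV X z) : resV X z = z := by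
  refine funext fun i => ma_ext fun h => ?_
  by_cases hh : h ∈ X
  · exact res_coeff_mem _ hh
  · rw [resV, res_coeff_not_mem _ hh]
    by_contra hne
    exact hh (hz i h fun h0 => hne h0.symm)

theorem SupV.mono {X X' : Set H} (h : X ⊆ X') {z : ι → MonoidAlgebra k H} (hz : SupV X z) :
    SupV X' z := fun i g hg => h (hz i g hg)

theorem SupV.add {X : Set H} {z z' : ι → MonoidAlgebra k H} (hz : SupV X z) (hz' : SupV X z') :
    SupV X (z + z') := by
  intro i h hh
  by_contra hX
  have h1 : (z i).coeff h = 0 := by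
    by_contra h0; exact hX (hz i h h0)
  have h2 : (z' i).coeff h = 0 := by
    by_contra h0; exact hX (hz' i h h0)
  apply hh
  rw [Pi.add_apply, MonoidAlgebra.coeff_add, Finsupp.add_apply, h1, h2, add_zero]

theorem SupV.zero {X : Set H} : SupV X (0 : ι → MonoidAlgebra k H) := fun i h hh => absurd rfl hh

theorem SupV.neg {X : Set H} {z : ι → MonoidAlgebra k H} (hz : SupV X z) : SupV X (-z) := by
  intro i h hh
  refine hz i h fun h0 => hh ?_
  rw [Pi.neg_apply]
  simp [h0]

theorem SupV.sub {X : Set H} {z z' : ι → MonoidAlgebra k H} (hz : SupV X z) (hz' : SupV X z') :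
    SupV X (z - z') := by
  rw [sub_eq_add_neg]
  exact hz.add hz'.neg

theorem SupV.sum {X : Set H} {α : Type} (s : Finset α) {f : α → ι → MonoidAlgebra k H}
    (h : ∀ a ∈ s, SupV X (f a)) : SupV X (∑ a ∈ s, f a) := by
  classical
  induction s using Finset.induction_on with
  | empty => simpa using SupV.zero
  | insert a s ha ih =>
    rw [Finset.sum_insert ha]
    exact (h a (Finset.mem_insert_self _ _)).add
      (ih fun b hb => h b (Finset.mem_insert_of_mem hb))

theorem SupV.single_smul {X : Set H} (g : H) (a : k) {z : ι → MonoidAlgebra k H}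
    (hz : SupV {h | g * h ∈ X} z) : SupV X (MonoidAlgebra.single g a • z) := by
  intro i h hh
  have h1 : (MonoidAlgebra.single g a * z i).coeff h ≠ 0 := hh
  rw [csm] at h1
  have h2 : (z i).coeff (g⁻¹ * h) ≠ 0 := fun h0 => h1 (by rw [h0, mul_zero])
  have h3 := hz i _ h2
  rw [Set.mem_setOf_eq, mul_inv_cancel_left] at h3
  exact h3

variable [Fintype ι] [Fintype κ]

/-- Restriction commutes with multiplication by matrices over the group algebra of `B`. -/
theorem resV_vecMul {X : Set H} (e : Matrix ι κ (MonoidAlgebra k H))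
    (hX : ∀ i j, ∀ b, (e i j).coeff b ≠ 0 → ∀ h, h * b ∈ X ↔ h ∈ X)
    (z : ι → MonoidAlgebra k H) : resV X (z ᵥ* e) = resV X z ᵥ* e := by
  classical
  refine funext fun j => ?_
  simp only [resV, Matrix.vecMul, dotProduct]
  rw [res_sum]
  exact Finset.sum_congr rfl fun i _ =>
    res_mul _ (fun b hb => hX i j b (Finsupp.mem_support_iff.1 hb)) _

/-- The support of `z M`. -/
theorem vecMul_coeff_ne (M : Matrix ι κ (MonoidAlgebra k H)) {z : ι → MonoidAlgebra k H} {j : κ}
    {h : H} (hh : ((z ᵥ* M) j).coeff h ≠ 0) :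
    ∃ i x y, (z i).coeff x ≠ 0 ∧ (M i j).coeff y ≠ 0 ∧ h = x * y := by
  classical
  by_contra hcon
  push Not at hcon
  apply hh
  simp only [Matrix.vecMul, dotProduct]
  rw [MonoidAlgebra.coeff_sum, Finsupp.finsetSum_apply]
  refine Finset.sum_eq_zero fun i _ => ?_
  by_contra h1
  obtain ⟨x, y, hx, hy, he⟩ := mul_coeff_ne h1
  exact hcon i x y hx hy he

theorem smul_vecMul' (M : Matrix ι κ (MonoidAlgebra k H)) (s : MonoidAlgebra k H)
    (z : ι → MonoidAlgebra k H) : (s • z) ᵥ* M = s • (z ᵥ* M) := by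
  refine funext fun j => ?_
  simp only [Matrix.vecMul, dotProduct, Pi.smul_apply, smul_eq_mul, Finset.mul_sum, mul_assoc]

end Vec

/-! ### The projections -/

section Pi

variable {k : Type} [DivisionRing k] {H : Type} [Group H] {ι κ : Type} [Fintype ι] [Fintype κ]
  [DecidableEq κ]
variable (Xm : Matrix ι κ (MonoidAlgebra k H)) (Ym : Matrix κ ι (MonoidAlgebra k H))

/-- The projection attached to the set `X`. -/
noncomputable def prj (X : Set H) (x : κ → MonoidAlgebra k H) : κ → MonoidAlgebra k H :=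
  resV X (x ᵥ* Ym) ᵥ* Xm

theorem prj_add (X : Set H) (x x' : κ → MonoidAlgebra k H) :
    prj Xm Ym X (x + x') = prj Xm Ym X x + prj Xm Ym X x' := by
  rw [prj, Matrix.add_vecMul, resV_add, Matrix.add_vecMul]; rfl

theorem prj_zero (X : Set H) : prj Xm Ym X 0 = 0 := by
  rw [prj, Matrix.zero_vecMul, resV_zero, Matrix.zero_vecMul]

/-- as an additive map -/
noncomputable def prjHom (X : Set H) :
    (κ → MonoidAlgebra k H) →+ (κ → MonoidAlgebra k H) where
  toFun := prj Xm Ym X
  map_zero' := prj_zero Xm Ym X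
  map_add' := prj_add Xm Ym X

theorem prj_sum (X : Set H) {α : Type} (s : Finset α) (f : α → κ → MonoidAlgebra k H) :
    prj Xm Ym X (∑ a ∈ s, f a) = ∑ a ∈ s, prj Xm Ym X (f a) :=
  map_sum (prjHom Xm Ym X) f s

theorem prj_univ (hYX : Ym * Xm = 1) (x : κ → MonoidAlgebra k H) : prj Xm Ym Set.univ x = x := by
  rw [prj, resV_univ, Matrix.vecMul_vecMul, hYX, Matrix.vecMul_one]

theorem prj_union {X X' : Set H} (hd : ∀ h ∈ X, h ∉ X') (x : κ → MonoidAlgebra k H) :
    prj Xm Ym (X ∪ X') x = prj Xm Ym X x + prj Xm Ym X' x := by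
  rw [prj, resV_union hd, Matrix.add_vecMul]; rfl

theorem prj_single_smul (X : Set H) (g : H) (a : k) (x : κ → MonoidAlgebra k H) :
    prj Xm Ym X (MonoidAlgebra.single g a • x) =
      MonoidAlgebra.single g a • prj Xm Ym {h | g * h ∈ X} x := by
  rw [prj, smul_vecMul', resV_single_smul, smul_vecMul']; rfl

theorem prj_prj {e : Matrix ι ι (MonoidAlgebra k H)} (hXY : Xm * Ym = e) (hYX : Ym * Xm = 1)
    (X : Set H) {X' : Set H}
    (hX' : ∀ i j, ∀ b, (e i j).coeff b ≠ 0 → ∀ h, h * b ∈ X' ↔ h ∈ X')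
    (x : κ → MonoidAlgebra k H) :
    prj Xm Ym X (prj Xm Ym X' x) = prj Xm Ym (X ∩ X') x := by
  have h1 : resV X' (x ᵥ* Ym) ᵥ* e = resV X' (x ᵥ* Ym) := by
    rw [← resV_vecMul e hX', ← hXY, Matrix.vecMul_vecMul, ← Matrix.mul_assoc, hYX, Matrix.one_mul]
  rw [prj, prj, Matrix.vecMul_vecMul, hXY, h1, resV_resV]; rfl

end Pi

end Pool.Agent.Helper5.KZ
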