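import Pool.Agent.Helper5.KZ.Stm

/-!
# Restriction of the support, and the projections attached to an isomorphism
-/

set_option autoImplicit false

open MonoidAlgebra

namespace Pool.Agent.Helper5.KZ

section Res

variable {k : Type} [DivisionRing k] {H : Type} [Group H]

open Classical in
/-- The part of `s` with support in `X`. -/
noncomputable def res (X : Set H) (s : MonoidAlgebra k H) : MonoidAlgebra k H :=
  MonoidAlgebra.ofCoeff (s.coeff.filter fun h => h ∈ X)

theorem res_coeff_mem {X : Set H} (s : MonoidAlgebra k H) {h : H} (hh : h ∈ X) :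
    (res X s).coeff h = s.coeff h := by
  simp [res, Finsupp.filter_apply, hh]

theorem res_coeff_not_mem {X : Set H} (s : MonoidAlgebra k H) {h : H} (hh : h ∉ X) :
    (res X s).coeff h = 0 := by
  simp [res, Finsupp.filter_apply, hh]

theorem ma_ext {s s' : MonoidAlgebra k H} (h : ∀ g, s.coeff g = s'.coeff g) : s = s' :=
  MonoidAlgebra.ext (Finsupp.ext h)

theorem res_add (X : Set H) (s s' : MonoidAlgebra k H) : res X (s + s') = res X s + res X s' := by
  refine ma_ext fun h => ?_
  by_cases hh : h ∈ X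
  · simp [res_coeff_mem _ hh]
  · simp [res_coeff_not_mem _ hh]

theorem res_zero (X : Set H) : res X (0 : MonoidAlgebra k H) = 0 := by
  refine ma_ext fun h => ?_
  by_cases hh : h ∈ X
  · simp [res_coeff_mem _ hh]
  · simp [res_coeff_not_mem _ hh]

theorem res_sum (X : Set H) {ι : Type} (s : Finset ι) (f : ι → MonoidAlgebra k H) :
    res X (∑ i ∈ s, f i) = ∑ i ∈ s, res X (f i) := by
  classical
  induction s using Finset.induction_on with
  | empty => simp [res_zero]
  | insert a s ha ih => rw [Finset.sum_insert ha, Finset.sum_insert ha, res_add, ih]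

theorem res_univ (s : MonoidAlgebra k H) : res Set.univ s = s :=
  ma_ext fun _ => res_coeff_mem _ (Set.mem_univ _)

theorem res_res (X X' : Set H) (s : MonoidAlgebra k H) : res X (res X' s) = res (X ∩ X') s := by
  refine ma_ext fun h => ?_
  by_cases hh : h ∈ X
  · rw [res_coeff_mem _ hh]
    by_cases hh' : h ∈ X'
    · rw [res_coeff_mem _ hh', res_coeff_mem (X := X ∩ X') s ⟨hh, hh'⟩]
    · rw [res_coeff_not_mem _ hh', res_coeff_not_mem (X := X ∩ X') s fun h' => hh' h'.2]
  · rw [res_coeff_not_mem _ hh, res_coeff_not_mem (X := X ∩ X') s fun h' => hh h'.1]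

theorem res_union {X X' : Set H} (hd : ∀ h ∈ X, h ∉ X') (s : MonoidAlgebra k H) :
    res (X ∪ X') s = res X s + res X' s := by
  refine ma_ext fun h => ?_
  rw [MonoidAlgebra.coeff_add, Finsupp.add_apply]
  by_cases hh : h ∈ X
  · rw [res_coeff_mem _ hh, res_coeff_mem (X := X ∪ X') s (Or.inl hh),
      res_coeff_not_mem _ (hd h hh), add_zero]
  · rw [res_coeff_not_mem _ hh, zero_add]
    by_cases hh' : h ∈ X'
    · rw [res_coeff_mem _ hh', res_coeff_mem (X := X ∪ X') s (Or.inr hh')]
    · rw [res_coeff_not_mem _ hh', res_coeff_not_mem (X := X ∪ X') s fun h' => h'.elim hh hh']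

theorem csm (g : H) (a : k) (s : MonoidAlgebra k H) (h : H) :
    (MonoidAlgebra.single g a * s).coeff h = a * s.coeff (g⁻¹ * h) :=
  MonoidAlgebra.coeff_single_mul_eq_mul_coeff _ fun m' _ => by
    constructor
    · rintro rfl; simp
    · rintro rfl; simp

theorem cms (b : H) (a : k) (s : MonoidAlgebra k H) (h : H) :
    (s * MonoidAlgebra.single b a).coeff h = s.coeff (h * b⁻¹) * a :=
  MonoidAlgebra.coeff_mul_single_eq_coeff_mul _ fun m' _ => by
    constructor
    · rintro rfl; simp
    · rintro rfl; simp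

/-- `res X (g s) = g res (g⁻¹ X) s` -/
theorem res_single_mul (X : Set H) (g : H) (a : k) (s : MonoidAlgebra k H) :
    res X (MonoidAlgebra.single g a * s) =
      MonoidAlgebra.single g a * res {h | g * h ∈ X} s := by
  refine ma_ext fun h => ?_
  rw [csm]
  by_cases hh : h ∈ X
  · rw [res_coeff_mem _ hh, csm, res_coeff_mem]
    show g * (g⁻¹ * h) ∈ X
    rwa [mul_inv_cancel_left]
  · rw [res_coeff_not_mem _ hh, res_coeff_not_mem, mul_zero]
    show ¬ g * (g⁻¹ * h) ∈ X
    rwa [mul_inv_cancel_left]

/-- For a right invariant set restriction commutes with right multiplication. -/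
theorem res_mul_single {X : Set H} {b : H} (hX : ∀ h, h * b ∈ X ↔ h ∈ X) (a : k)
    (s : MonoidAlgebra k H) :
    res X (s * MonoidAlgebra.single b a) = res X s * MonoidAlgebra.single b a := by
  refine ma_ext fun h => ?_
  rw [cms]
  have h1 : h ∈ X ↔ h * b⁻¹ ∈ X := by
    rw [← hX (h * b⁻¹), inv_mul_cancel_right]
  by_cases hh : h ∈ X
  · rw [res_coeff_mem _ hh, cms, res_coeff_mem _ (h1.1 hh)]
  · rw [res_coeff_not_mem _ hh, res_coeff_not_mem _ fun h' => hh (h1.2 h'), zero_mul]

theorem res_mul {X : Set H} (u : MonoidAlgebra k H)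
    (hX : ∀ b ∈ u.coeff.support, ∀ h, h * b ∈ X ↔ h ∈ X) (s : MonoidAlgebra k H) :
    res X (s * u) = res X s * u := by
  classical
  have h1 : u = ∑ b ∈ u.coeff.support, MonoidAlgebra.single b (u.coeff b) :=
    (MonoidAlgebra.sum_coeff_single u).symm
  conv_lhs => rw [h1]
  conv_rhs => rw [h1]
  rw [Finset.mul_sum, Finset.mul_sum, res_sum]
  exact Finset.sum_congr rfl fun b hb => res_mul_single (hX b hb) _ _

/-- The support of a product. -/
theorem mul_coeff_ne {s u : MonoidAlgebra k H} {h : H} (hh : (s * u).coeff h ≠ 0) :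
    ∃ x y, s.coeff x ≠ 0 ∧ u.coeff y ≠ 0 ∧ h = x * y := by
  classical
  by_contra hcon
  push Not at hcon
  apply hh
  rw [MonoidAlgebra.coeff_mul]
  refine Finset.sum_eq_zero fun x hx => Finset.sum_eq_zero fun y hy => ?_
  exact if_neg fun h' =>
    hcon x y (Finsupp.mem_support_iff.1 hx) (Finsupp.mem_support_iff.1 hy) h'.symm

end Res

end Pool.Agent.Helper5.KZ
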