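import Pool.Agent.Helper5.KZ.Stm
import Pool.Agent.Helper5.FJ.Main

/-!
# Project KZ of helper5: the last step

`HH` (file `Pool/Agent/Helper5/FJ/Grp.lean`) is the HNN extension of the free product
`B₀ = Monoid.CoprodI PG` of the groups `PG i` (largest torsionfree quotients of finitely presented groups)
with free associated subgroups (`phi`, `free_range`, `tf_HH`, `closure_HH`).
-/

set_option autoImplicit false

namespace Pool.Agent.Helper5.KZ

open Pool.Agent.Helper5.FJ

/-- Piece GLUE. Steps:
1. `K0Triv` is invariant under ring isomorphisms and passes from `k[G']` to `k[G]` if `G` is a retract of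
   `G'` (apply the induced maps to the matrices); so `K0Triv k[A₁]`, `K0Triv k[A₂]` by `S_FREE` (the groups
   `A₁ ≃* A₂` are free: `free_range`), and `K0Triv k[HH] → K0Triv k[B₀]` by `S_CORE`, `→ K0Triv k[PG i]` for
   all `i` (retracts `pr i`, `pr_of i`).
2. Let `G` be torsionfree and `e` an idempotent matrix over `k[G]`. As in `all_of_formal` of
   `Pool/Agent/Helper5/FJ/LocMain.lean` (or `exists_lift_pair` of `Ulm.lean`) there are `L`,
   `φ : FreeGroup (Fin L) →* G` and a matrix `e'` over `k[FreeGroup (Fin L)]` with image `e`; let `r` be the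
   finite set of the `w` in `quots (e' * e' - e')` (file `Loc.lean`) with `φ w = 1`, and
   `P = FreeGroup (Fin L) ⧸ tfc r`; `φ` factors through `P` (`tfc_le_ker`), the image of `e'` over `k[P]` is
   idempotent (`ind_eq_zero`), and `P = PG ⟨L, r⟩`; so it is stably free over `k[P]` and hence `e` over
   `k[G]`. -/
def S_GLUE : Prop := S_FREE → S_CORE → ∀ (k : Type) [DivisionRing k],
  K0Triv (MonoidAlgebra k HH) → ∀ (G : Type) [Group G], TF G → K0Triv (MonoidAlgebra k G)

end Pool.Agent.Helper5.KZ
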