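import Pool.Agent.Helper5.KZ.Proj
import Pool.Agent.Helper5.KZ.Stm2

/-!
# The pieces of `S_CORE`
-/

set_option autoImplicit false

open MonoidAlgebra Matrix

namespace Pool.Agent.Helper5.KZ

/-- Vectors over `S`, as a module over `R'` via `f : R' → S`. -/
def LL {R' S : Type} [Ring R'] [Ring S] (_f : R' →+* S) (κ : Type) : Type := κ → S

instance {R' S : Type} [Ring R'] [Ring S] (f : R' →+* S) (κ : Type) : AddCommGroup (LL f κ) :=
  inferInstanceAs (AddCommGroup (κ → S))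

noncomputable instance {R' S : Type} [Ring R'] [Ring S] (f : R' →+* S) (κ : Type) :
    Module R' (LL f κ) := Module.compHom (κ → S) f

theorem LL_smul {R' S : Type} [Ring R'] [Ring S] (f : R' →+* S) {κ : Type} (r : R')
    (x : LL f κ) (j : κ) : (r • x) j = f r * x j := rfl

/-- The ring homomorphism of group algebras. -/
noncomputable abbrev mR (k : Type) [DivisionRing k] {G H : Type} [Group G] [Group H] (f : G →* H) :
    MonoidAlgebra k G →+* MonoidAlgebra k H := MonoidAlgebra.mapDomainRingHom k f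

/-- The union of the translates of `X`. -/
def UU {G H : Type} [Group G] [Group H] (f : G →* H) (X : Set H) : Set H :=
  {h | ∃ g : G, (f g)⁻¹ * h ∈ X}

/-- Piece FREEC: vectors with support in a set `𝓓` with finitely many left orbits form a free module
of finite rank (basis: the vectors with one entry `single d 1`, `d` in a set of representatives of the
orbits in `𝓓`). -/
def S_FREEC : Prop :=
  ∀ (k : Type) [DivisionRing k] (G H : Type) [Group G] [Group H] (f : G →* H),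
    Function.Injective f → ∀ (κ : Type) [Fintype κ] (𝓓 : Set H) (D₀ : Finset H),
    (∀ g, ∀ h ∈ 𝓓, f g * h ∈ 𝓓) → (∀ h ∈ 𝓓, ∃ g, ∃ d ∈ D₀, h = f g * d) →
    ∀ N : Submodule (MonoidAlgebra k G) (LL (mR k f) κ),
      (∀ x : κ → MonoidAlgebra k H, (x : LL (mR k f) κ) ∈ N ↔ SupV 𝓓 x) →
      ∃ b : ℕ, Nonempty (N ≃ₗ[MonoidAlgebra k G] (Fin b → MonoidAlgebra k G))

/-- Piece SFIN: from a stably free `k[C]`-module `N₁` to the explicit form. -/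
def S_SFIN : Prop :=
  ∀ (k : Type) [DivisionRing k] (G : Type) [Group G] (C : Subgroup G) (N : Type)
    [AddCommGroup N] [Module (MonoidAlgebra k G) N] (N₀ : AddSubgroup N) (N₁ : Type)
    [AddCommGroup N₁] [Module (MonoidAlgebra k C) N₁] (i : N₁ →+ N), Function.Injective i →
    (∀ y, y ∈ N₀ ↔ ∃ x, i x = y) →
    (∀ (c : MonoidAlgebra k C) (x : N₁), i (c • x) = mR k C.subtype c • i x) →
    SFm (MonoidAlgebra k C) N₁ → SFin (k := k) C N₀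

/-- Piece WALL: supports of the projections, from `Sides`. With `W = Wf * B` from `Sides.hull` applied
to the inverses of the elements of the supports of the entries of `Xm`: `𝓔 = {h | h⁻¹ ∈ W}`,
`𝓓₂ = {h | h⁻¹ ∈ W ∧ h⁻¹ t ∈ W}`, `𝓓₁ = {h | h⁻¹ t⁻¹ ∈ W ∧ h⁻¹ ∈ W}`. An element `h` of the support of
`prj X x` satisfies `h w ∈ X` for some `w ∈ Wf`, for all `X` (`vecMul_coeff_ne`, `supV_resV`), and
`prj Hp x = x - prj Hpᶜ x` (`prj_univ`, `prj_union`); so if `x` has support in `𝓔` then there is also a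
`w'` in `Wf` with `h w' ∉ Hp`; apply `hull` to `g = h⁻¹`. Finitely many orbits: two `h` in `𝓓₂` with the
same pair `(w, w')`, `h⁻¹ = w b`, `h⁻¹ t = w' b'` differ by an element of `B ∩ t B t⁻¹ = A₂` (this follows
from `unique_out` for `h = t`); use `t * of a = of (φ a) * t` for the invariance. -/
def S_WALL : Prop :=
  ∀ (k : Type) [DivisionRing k] (B : Type) [Group B] (A₁ A₂ : Subgroup B) (φ : A₁ ≃* A₂)
    (Hp : Set (HNNExtension B A₁ A₂ φ)), Sides φ Hp →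
    ∀ (ι κ : Type) [Fintype ι] [Fintype κ] [DecidableEq κ]
      (Xm : Matrix ι κ (MonoidAlgebra k (HNNExtension B A₁ A₂ φ)))
      (Ym : Matrix κ ι (MonoidAlgebra k (HNNExtension B A₁ A₂ φ))), Ym * Xm = 1 →
    ∃ (𝓔 𝓓₂ 𝓓₁ : Set (HNNExtension B A₁ A₂ φ)) (E₀ D₂ D₁ : Finset (HNNExtension B A₁ A₂ φ)),
      ((∀ b, ∀ h ∈ 𝓔, HNNExtension.of b * h ∈ 𝓔) ∧
        (∀ h ∈ 𝓔, ∃ b, ∃ d ∈ E₀, h = HNNExtension.of b * d) ∧
        (∀ i j h, (Xm i j).coeff h ≠ 0 → h ∈ 𝓔)) ∧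
      (𝓓₂ ⊆ 𝓔 ∧ (∀ c ∈ A₂, ∀ h ∈ 𝓓₂, HNNExtension.of c * h ∈ 𝓓₂) ∧
        (∀ h ∈ 𝓓₂, ∃ c ∈ A₂, ∃ d ∈ D₂, h = HNNExtension.of c * d) ∧
        (∀ x : κ → MonoidAlgebra k (HNNExtension B A₁ A₂ φ), SupV 𝓔 x →
          SupV 𝓓₂ (prj Xm Ym Hp x))) ∧
      (𝓓₁ ⊆ 𝓔 ∧ (∀ c ∈ A₁, ∀ h ∈ 𝓓₁, HNNExtension.of c * h ∈ 𝓓₁) ∧
        (∀ h ∈ 𝓓₁, ∃ c ∈ A₁, ∃ d ∈ D₁, h = HNNExtension.of c * d) ∧
        (∀ x : κ → MonoidAlgebra k (HNNExtension B A₁ A₂ φ), SupV 𝓔 x →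
          SupV 𝓓₁ (prj Xm Ym {h | HNNExtension.t * h ∉ Hp} x)))

/-- Piece PP: the part of `L[𝓔]` fixed by the projection attached to `G` is `P`, by
`z ↦ (f z) Xm` (inverse `x ↦` the vector `z` with `f z = resV (range f) (x Ym)`). -/
def S_PP : Prop :=
  ∀ (k : Type) [DivisionRing k] (G H : Type) [Group G] [Group H] (f : G →* H),
    Function.Injective f → ∀ (ι κ : Type) [Fintype ι] [Fintype κ] [DecidableEq ι] [DecidableEq κ]
      (e : Matrix ι ι (MonoidAlgebra k G)) (Xm : Matrix ι κ (MonoidAlgebra k H))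
      (Ym : Matrix κ ι (MonoidAlgebra k H)), e * e = e → Xm * Ym = e.map (mR k f) → Ym * Xm = 1 →
    ∀ 𝓔 : Set H, (∀ g, ∀ h ∈ 𝓔, f g * h ∈ 𝓔) → (∀ i j h, (Xm i j).coeff h ≠ 0 → h ∈ 𝓔) →
    ∀ P : Submodule (MonoidAlgebra k G) (ι → MonoidAlgebra k G), (∀ x, x ∈ P ↔ x ᵥ* e = x) →
    ∀ P' : Submodule (MonoidAlgebra k G) (LL (mR k f) κ),
      (∀ x : κ → MonoidAlgebra k H, (x : LL (mR k f) κ) ∈ P' ↔
        SupV 𝓔 x ∧ prj Xm Ym (Set.range f) x = x) →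
      Nonempty (P ≃ₗ[MonoidAlgebra k G] P')

/-- Piece FLAG (helper5). -/
def S_FLAG : Prop :=
  ∀ (k : Type) [DivisionRing k] (G H : Type) [Group G] [Group H] (f : G →* H),
    Function.Injective f → ∀ (C : Subgroup G) (X 𝓔 𝓓 : Set H) (D₀ : Finset H) (ι κ : Type)
      [Fintype ι] [Fintype κ] [DecidableEq ι] [DecidableEq κ]
      (e : Matrix ι ι (MonoidAlgebra k G)) (Xm : Matrix ι κ (MonoidAlgebra k H))
      (Ym : Matrix κ ι (MonoidAlgebra k H)), Xm * Ym = e.map (mR k f) → Ym * Xm = 1 →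
    (∀ g h, h * f g ∈ X ↔ h ∈ X) → (∀ c ∈ C, ∀ h, f c * h ∈ X ↔ h ∈ X) →
    (∀ h g g', (f g)⁻¹ * h ∈ X → (f g')⁻¹ * h ∈ X → g⁻¹ * g' ∈ C) →
    (∀ g, ∀ h ∈ 𝓔, f g * h ∈ 𝓔) → 𝓓 ⊆ 𝓔 → (∀ c ∈ C, ∀ h ∈ 𝓓, f c * h ∈ 𝓓) →
    (∀ h ∈ 𝓓, ∃ c ∈ C, ∃ d ∈ D₀, h = f c * d) →
    (∀ x : κ → MonoidAlgebra k H, SupV 𝓔 x → SupV 𝓓 (prj Xm Ym X x)) →
    K0Triv (MonoidAlgebra k C) →
    (∀ x : κ → MonoidAlgebra k H, SupV 𝓔 x → SupV 𝓔 (prj Xm Ym (UU f X) x)) ∧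
    ∀ N : Submodule (MonoidAlgebra k G) (LL (mR k f) κ),
      (∀ x : κ → MonoidAlgebra k H, (x : LL (mR k f) κ) ∈ N ↔
        SupV 𝓔 x ∧ prj Xm Ym (UU f X) x = x) → SFm (MonoidAlgebra k G) N

end Pool.Agent.Helper5.KZ
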